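import Pool.Agent.H28.MZ.Targets

/-!
Module QA (MP_9f0eeb_nt): Selberg weights. helper26
-/

set_option autoImplicit false

open Finset

noncomputable section

namespace Pool.Agent.H26.PZ

open Pool.Agent.H28.MZ

theorem sum_div_prod (f : ℕ → ℝ) {n : ℕ} (hn : Squarefree n) :
    ∏ p ∈ n.primeFactors, (1 + f p) = ∑ d ∈ n.divisors, ∏ p ∈ d.primeFactors, f p := by
  have h := (ArithmeticFunction.IsMultiplicative.prodPrimeFactors
    f).prodPrimeFactors_one_add_of_squarefree hn
  have h1 : ∏ p ∈ n.primeFactors, (1 + f p)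
      = ∏ p ∈ n.primeFactors, (1 + (ArithmeticFunction.prodPrimeFactors f) p) := by
    apply Finset.prod_congr rfl
    intro p hp
    have hpp := Nat.prime_of_mem_primeFactors hp
    rw [ArithmeticFunction.prodPrimeFactors_apply hpp.ne_zero, Nat.Prime.primeFactors hpp,
      Finset.prod_singleton]
  rw [h1, h]
  apply Finset.sum_congr rfl
  intro d hd
  rw [ArithmeticFunction.prodPrimeFactors_apply (Nat.pos_of_mem_divisors hd).ne']

/-- `∏_{p ∣ d} (p^s - 1)` -/
def JJ (s : ℝ) (d : ℕ) : ℝ := ∏ p ∈ d.primeFactors, ((p : ℝ) ^ s - 1)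

theorem ps_pos {s : ℝ} (hs : 0 < s) {p : ℕ} (hp : p.Prime) : 0 < (p : ℝ) ^ s - 1 := by
  have : (1 : ℝ) < p := by exact_mod_cast hp.one_lt
  have := Real.one_lt_rpow this hs
  linarith

theorem gS_pos {s : ℝ} (hs : 0 < s) (d : ℕ) : 0 < gS s d := by
  unfold gS
  apply Finset.prod_pos
  intro p hp
  exact one_div_pos.mpr (ps_pos hs (Nat.prime_of_mem_primeFactors hp))

theorem JJ_mul_gS {s : ℝ} (hs : 0 < s) (d : ℕ) : JJ s d * gS s d = 1 := by
  unfold JJ gS
  rw [← Finset.prod_mul_distrib]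
  apply Finset.prod_eq_one
  intro p hp
  have := ps_pos hs (Nat.prime_of_mem_primeFactors hp)
  field_simp

theorem gS_mul {s : ℝ} {a b : ℕ} (h : Nat.Coprime a b) : gS s (a * b) = gS s a * gS s b := by
  unfold gS
  rw [Nat.Coprime.primeFactors_mul h, Finset.prod_union h.disjoint_primeFactors]

theorem pow_eq_sum {s : ℝ} {n : ℕ} (hn : Squarefree n) :
    (n : ℝ) ^ s = ∑ d ∈ n.divisors, JJ s d := by
  have h := sum_div_prod (fun p => (p : ℝ) ^ s - 1) hn
  unfold JJ
  rw [← h]
  have h1 : (n : ℝ) = ∏ p ∈ n.primeFactors, (p : ℝ) := by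
    rw [← Nat.cast_prod, Nat.prod_primeFactors_of_squarefree hn]
  conv_lhs => rw [h1]
  rw [← Real.finsetProd_rpow _ _ (fun i _ => by positivity)]
  apply Finset.prod_congr rfl
  intro p _
  ring

theorem pow_mul_gS {s : ℝ} (hs : 0 < s) {n : ℕ} (hn : Squarefree n) :
    (n : ℝ) ^ s * gS s n = ∑ d ∈ n.divisors, gS s d := by
  have h := sum_div_prod (fun p => 1 / ((p : ℝ) ^ s - 1)) hn
  unfold gS
  rw [← h]
  have h1 : (n : ℝ) = ∏ p ∈ n.primeFactors, (p : ℝ) := by
    rw [← Nat.cast_prod, Nat.prod_primeFactors_of_squarefree hn]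
  conv_lhs => rw [h1]
  rw [← Real.finsetProd_rpow _ _ (fun i _ => by positivity), ← Finset.prod_mul_distrib]
  apply Finset.prod_congr rfl
  intro p hp
  have := ps_pos hs (Nat.prime_of_mem_primeFactors hp)
  field_simp
  ring

theorem sum_moebius {n : ℕ} :
    ∑ d ∈ n.divisors, (ArithmeticFunction.moebius d : ℝ) = if n = 1 then 1 else 0 := by
  have h := congrArg (fun f : ArithmeticFunction ℤ => f n) ArithmeticFunction.moebius_mul_coe_zeta
  simp only [ArithmeticFunction.coe_mul_zeta_apply, ArithmeticFunction.one_apply] at h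
  have h2 := congrArg (fun z : ℤ => (z : ℝ)) h
  simp only [Int.cast_sum] at h2
  rw [h2]
  split_ifs <;> simp

theorem sum_moebius_between {e d : ℕ} (he : Squarefree e) (hd : d ∣ e) :
    ∑ h ∈ e.divisors.filter (fun h => d ∣ h), (ArithmeticFunction.moebius h : ℝ)
      = if e = d then (ArithmeticFunction.moebius d : ℝ) else 0 := by
  obtain ⟨c, rfl⟩ := hd
  have hne : d * c ≠ 0 := he.ne_zero
  have hd0 : d ≠ 0 := left_ne_zero_of_mul hne
  have hcop : Nat.Coprime d c := (Nat.squarefree_mul_iff.mp he).1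
  have h1 : (d * c).divisors.filter (fun h => d ∣ h) = c.divisors.image (fun m => d * m) := by
    ext h
    simp only [Finset.mem_filter, Nat.mem_divisors, Finset.mem_image]
    constructor
    · rintro ⟨⟨h1, -⟩, m, rfl⟩
      exact ⟨m, ⟨Nat.dvd_of_mul_dvd_mul_left (Nat.pos_of_ne_zero hd0) h1,
        right_ne_zero_of_mul hne⟩, rfl⟩
    · rintro ⟨m, ⟨hm, -⟩, rfl⟩
      exact ⟨⟨Nat.mul_dvd_mul_left d hm, hne⟩, Dvd.intro m rfl⟩
  rw [h1, Finset.sum_image (fun a _ b _ hab => Nat.eq_of_mul_eq_mul_left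
    (Nat.pos_of_ne_zero hd0) hab)]
  have h2 : ∀ m ∈ c.divisors, (ArithmeticFunction.moebius (d * m) : ℝ)
      = (ArithmeticFunction.moebius d : ℝ) * ArithmeticFunction.moebius m := by
    intro m hm
    have : Nat.Coprime d m := hcop.coprime_dvd_right (Nat.dvd_of_mem_divisors hm)
    rw [ArithmeticFunction.isMultiplicative_moebius.map_mul_of_coprime this]
    push_cast
    ring
  rw [Finset.sum_congr rfl h2, ← Finset.mul_sum, sum_moebius]
  by_cases hc : c = 1
  · simp [hc]
  · have : d * c ≠ d := by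
      intro h
      apply hc
      exact Nat.eq_of_mul_eq_mul_left (Nat.pos_of_ne_zero hd0) (by simpa using h)
    simp [hc, this]

open scoped Classical in
/-- the index set -/
def DD (q Y : ℕ) : Finset ℕ :=
  (Finset.Icc 1 Y).filter (fun d => Squarefree d ∧ Nat.Coprime d q)

theorem mem_DD {q Y d : ℕ} : d ∈ DD q Y ↔ (1 ≤ d ∧ d ≤ Y) ∧ Squarefree d ∧ Nat.Coprime d q := by
  unfold DD
  rw [Finset.mem_filter, Finset.mem_Icc]

theorem DD_dvd {q Y d e : ℕ} (he : e ∈ DD q Y) (hd : d ∣ e) : d ∈ DD q Y := by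
  rw [mem_DD] at he ⊢
  have hd0 : 0 < d := Nat.pos_of_dvd_of_pos hd (by omega)
  exact ⟨⟨hd0, (Nat.le_of_dvd (by omega) hd).trans he.1.2⟩, he.2.1.squarefree_of_dvd hd,
    he.2.2.coprime_dvd_left hd⟩

/-- `∑_{e ∈ D, h ∣ e} g(e)` -/
def TT (q Y : ℕ) (s : ℝ) (h : ℕ) : ℝ := ∑ e ∈ (DD q Y).filter (fun e => h ∣ e), gS s e

theorem TT_nonneg {s : ℝ} (hs : 0 < s) (q Y h : ℕ) : 0 ≤ TT q Y s h :=
  Finset.sum_nonneg fun e _ => (gS_pos hs e).le

theorem GS_eq (q Y : ℕ) (s : ℝ) : GS q Y s = ∑ d ∈ DD q Y, gS s d := by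
  unfold GS DD
  rfl

theorem pow_TT_le {s : ℝ} (hs : 0 < s) {q Y h : ℕ} (hh : h ∈ DD q Y) :
    (h : ℝ) ^ s * TT q Y s h ≤ GS q Y s := by
  have hsq : Squarefree h := (mem_DD.mp hh).2.1
  have hh0 : 0 < h := (mem_DD.mp hh).1.1
  have key : ∀ e ∈ (DD q Y).filter (fun e => h ∣ e),
      (h : ℝ) ^ s * gS s e = ∑ l ∈ h.divisors, gS s (l * (e / h)) := by
    intro e he
    rw [Finset.mem_filter] at he
    obtain ⟨he, c, rfl⟩ := he
    have hsqe := (mem_DD.mp he).2.1
    have hcop : Nat.Coprime h c := (Nat.squarefree_mul_iff.mp hsqe).1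
    rw [Nat.mul_div_cancel_left c hh0, gS_mul hcop, ← mul_assoc, pow_mul_gS hs hsq,
      Finset.sum_mul]
    apply Finset.sum_congr rfl
    intro l hl
    rw [gS_mul (hcop.coprime_dvd_left (Nat.dvd_of_mem_divisors hl))]
  unfold TT
  rw [Finset.mul_sum, Finset.sum_congr rfl key, ← Finset.sum_product', GS_eq]
  set A := (DD q Y).filter (fun e => h ∣ e) ×ˢ h.divisors with hA
  have hinj : Set.InjOn (fun x : ℕ × ℕ => x.2 * (x.1 / h)) A := by
    rintro ⟨e, l⟩ hx ⟨e', l'⟩ hx' hxx
    simp only [hA, Finset.coe_product, Set.mem_prod, Finset.mem_coe, Finset.mem_filter] at hx hx'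
    obtain ⟨⟨he, c, rfl⟩, hl⟩ := hx
    obtain ⟨⟨he', c', rfl⟩, hl'⟩ := hx'
    simp only [Nat.mul_div_cancel_left _ hh0] at hxx
    have hc : Nat.Coprime h c := (Nat.squarefree_mul_iff.mp (mem_DD.mp he).2.1).1
    have hc' : Nat.Coprime h c' := (Nat.squarefree_mul_iff.mp (mem_DD.mp he').2.1).1
    have h1 : Nat.gcd (l * c) h = l := by
      rw [Nat.Coprime.gcd_mul_right_cancel l hc.symm]
      exact Nat.gcd_eq_left (Nat.dvd_of_mem_divisors hl)
    have h2 : Nat.gcd (l' * c') h = l' := by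
      rw [Nat.Coprime.gcd_mul_right_cancel l' hc'.symm]
      exact Nat.gcd_eq_left (Nat.dvd_of_mem_divisors hl')
    have h3 : l = l' := by rw [← h1, hxx, h2]
    subst h3
    have h4 : c = c' := Nat.eq_of_mul_eq_mul_left (Nat.pos_of_mem_divisors hl) hxx
    subst h4
    rfl
  have himg : ∑ x ∈ A, gS s (x.2 * (x.1 / h)) = ∑ f ∈ A.image (fun x => x.2 * (x.1 / h)), gS s f :=
    (Finset.sum_image (f := fun f => gS s f) hinj).symm
  rw [himg]
  apply Finset.sum_le_sum_of_subset_of_nonneg _ (fun i _ _ => (gS_pos hs i).le)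
  intro f hf
  rw [Finset.mem_image] at hf
  obtain ⟨⟨e, l⟩, hx, rfl⟩ := hf
  rw [hA, Finset.mem_product, Finset.mem_filter] at hx
  obtain ⟨⟨he, c, rfl⟩, hl⟩ := hx
  simp only [Nat.mul_div_cancel_left _ hh0]
  exact DD_dvd he (Nat.mul_dvd_mul_right (Nat.dvd_of_mem_divisors hl) c)

open scoped Classical in
/-- the Selberg weights -/
def sb (q Y : ℕ) (s : ℝ) (h : ℕ) : ℝ :=
  if h ∈ DD q Y then (ArithmeticFunction.moebius h : ℝ) * (h : ℝ) ^ s * (GS q Y s)⁻¹ * TT q Y s h
  else 0

theorem qa : T_QA := by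
  intro q Y s hq hY hs1
  have hs : 0 < s := by linarith
  have h1D : 1 ∈ DD q Y := by
    rw [mem_DD]
    exact ⟨⟨le_rfl, hY⟩, squarefree_one, Nat.coprime_one_left q⟩
  have hG : 0 < GS q Y s := by
    rw [GS_eq]
    exact Finset.sum_pos (fun d _ => gS_pos hs d) ⟨1, h1D⟩
  refine ⟨sb q Y s, ⟨?_, ?_, ?_⟩, ?_⟩
  · unfold sb
    rw [if_pos h1D]
    have : TT q Y s 1 = GS q Y s := by
      rw [GS_eq]
      unfold TT
      rw [Finset.filter_true_of_mem (fun e _ => one_dvd e)]
    rw [this]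
    simp
    field_simp
  · intro h
    unfold sb
    split_ifs with hh
    · have h1 := pow_TT_le hs hh
      have h2 : |(ArithmeticFunction.moebius h : ℝ)| = 1 := by
        have := ArithmeticFunction.abs_moebius_eq_one_of_squarefree (mem_DD.mp hh).2.1
        rw [← Int.cast_abs, this, Int.cast_one]
      have h3 := TT_nonneg hs q Y h
      have h4 : 0 ≤ (h : ℝ) ^ s := by positivity
      rw [abs_mul, abs_mul, abs_mul, h2, abs_of_nonneg h3, abs_of_nonneg h4,
        abs_of_pos (inv_pos.mpr hG)]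
      calc 1 * (h : ℝ) ^ s * (GS q Y s)⁻¹ * TT q Y s h
          = ((h : ℝ) ^ s * TT q Y s h) * (GS q Y s)⁻¹ := by ring
        _ ≤ GS q Y s * (GS q Y s)⁻¹ := mul_le_mul_of_nonneg_right h1 (inv_pos.mpr hG).le
        _ = 1 := mul_inv_cancel₀ hG.ne'
    · simp
  · intro h hh
    unfold sb
    rw [if_neg]
    intro h'
    exact hh (mem_DD.mp h').2.2
  · -- the value of the quadratic form
    set c : ℕ → ℝ := fun h => (ArithmeticFunction.moebius h : ℝ) * (GS q Y s)⁻¹ * TT q Y s h
      with hc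
    have hsub : DD q Y ⊆ Finset.Icc 1 Y := by
      intro d hd
      rw [Finset.mem_Icc]
      exact (mem_DD.mp hd).1
    have hQ : Qf (sb q Y s) Y s = ∑ h ∈ DD q Y, ∑ k ∈ DD q Y,
        c h * c k * ∑ d ∈ DD q Y, (if d ∣ h then 1 else 0) * (if d ∣ k then 1 else 0) * JJ s d := by
      unfold Qf
      rw [← Finset.sum_subset hsub]
      · apply Finset.sum_congr rfl
        intro h hh
        rw [← Finset.sum_subset hsub]
        · apply Finset.sum_congr rfl
          intro k hk
          have hh0 : (0 : ℝ) < h := by exact_mod_cast (mem_DD.mp hh).1.1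
          have hk0 : (0 : ℝ) < k := by exact_mod_cast (mem_DD.mp hk).1.1
          have hg : Squarefree (Nat.gcd h k) :=
            (mem_DD.mp hh).2.1.squarefree_of_dvd (Nat.gcd_dvd_left h k)
          have hsum : ((Nat.gcd h k : ℕ) : ℝ) ^ s
              = ∑ d ∈ DD q Y, (if d ∣ h then 1 else 0) * (if d ∣ k then 1 else 0) * JJ s d := by
            rw [pow_eq_sum hg]
            have hfil : (Nat.gcd h k).divisors = (DD q Y).filter (fun d => d ∣ h ∧ d ∣ k) := by
              ext d
              rw [Nat.mem_divisors, Finset.mem_filter, Nat.dvd_gcd_iff]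
              constructor
              · rintro ⟨h1, -⟩
                exact ⟨DD_dvd hh h1.1, h1⟩
              · rintro ⟨-, h1⟩
                exact ⟨h1, hg.ne_zero⟩
            rw [hfil, Finset.sum_filter]
            apply Finset.sum_congr rfl
            intro d _
            by_cases h1 : d ∣ h <;> by_cases h2 : d ∣ k <;> simp [h1, h2]
          rw [hsum]
          unfold sb
          rw [if_pos hh, if_pos hk, hc]
          simp only
          rw [Real.mul_rpow hh0.le hk0.le, Real.rpow_neg hh0.le, Real.rpow_neg hk0.le]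
          have e1 : (h : ℝ) ^ s ≠ 0 := by positivity
          have e2 : (k : ℝ) ^ s ≠ 0 := by positivity
          field_simp
        · intro k _ hk
          have : sb q Y s k = 0 := by unfold sb; rw [if_neg hk]
          rw [this]; ring
      · intro h _ hh
        apply Finset.sum_eq_zero
        intro k _
        have : sb q Y s h = 0 := by unfold sb; rw [if_neg hh]
        rw [this]; ring
    have hy : ∀ d ∈ DD q Y, ∑ h ∈ DD q Y, (if d ∣ h then 1 else 0) * c h
        = (GS q Y s)⁻¹ * ((ArithmeticFunction.moebius d : ℝ) * gS s d) := by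
      intro d hd
      have h1 : ∀ h ∈ DD q Y, (if d ∣ h then (1 : ℝ) else 0) * c h
          = ∑ e ∈ DD q Y, (GS q Y s)⁻¹ * (gS s e *
            (if d ∣ h ∧ h ∣ e then (ArithmeticFunction.moebius h : ℝ) else 0)) := by
        intro h _
        rw [hc]
        simp only
        unfold TT
        rw [Finset.sum_filter, Finset.mul_sum, Finset.mul_sum]
        apply Finset.sum_congr rfl
        intro e _
        by_cases a1 : d ∣ h <;> by_cases a2 : h ∣ e <;> simp [a1, a2]
        ring
      rw [Finset.sum_congr rfl h1, Finset.sum_comm]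
      have h2 : ∀ e ∈ DD q Y, ∑ h ∈ DD q Y, (GS q Y s)⁻¹ * (gS s e *
            (if d ∣ h ∧ h ∣ e then (ArithmeticFunction.moebius h : ℝ) else 0))
          = (GS q Y s)⁻¹ * (gS s e * (if e = d then (ArithmeticFunction.moebius d : ℝ) else 0)) := by
        intro e he
        rw [← Finset.mul_sum, ← Finset.mul_sum, ← Finset.sum_filter]
        congr 2
        by_cases hde : d ∣ e
        · rw [← sum_moebius_between (mem_DD.mp he).2.1 hde]
          apply Finset.sum_congr _ (fun _ _ => rfl)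
          ext h
          rw [Finset.mem_filter, Finset.mem_filter, Nat.mem_divisors]
          constructor
          · rintro ⟨-, a, b⟩
            exact ⟨⟨b, (mem_DD.mp he).2.1.ne_zero⟩, a⟩
          · rintro ⟨⟨b, -⟩, a⟩
            exact ⟨DD_dvd he b, a, b⟩
        · have hed : e ≠ d := by
            rintro rfl
            exact hde dvd_rfl
          rw [if_neg hed]
          apply Finset.sum_eq_zero
          intro h hh
          rw [Finset.mem_filter] at hh
          exact absurd (hh.2.1.trans hh.2.2) hde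
      rw [Finset.sum_congr rfl h2, ← Finset.mul_sum]
      congr 1
      rw [Finset.sum_eq_single d]
      · rw [if_pos rfl]; ring
      · intro e _ hed
        rw [if_neg hed]; ring
      · intro h; exact absurd hd h
    have hQ2 : Qf (sb q Y s) Y s = ∑ d ∈ DD q Y, JJ s d *
        (∑ h ∈ DD q Y, (if d ∣ h then 1 else 0) * c h) ^ 2 := by
      rw [hQ]
      have : ∀ h ∈ DD q Y, ∀ k ∈ DD q Y,
          c h * c k * ∑ d ∈ DD q Y, (if d ∣ h then (1 : ℝ) else 0) * (if d ∣ k then 1 else 0) * JJ s d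
          = ∑ d ∈ DD q Y, JJ s d * (((if d ∣ h then 1 else 0) * c h) *
            ((if d ∣ k then 1 else 0) * c k)) := by
        intro h _ k _
        rw [Finset.mul_sum]
        apply Finset.sum_congr rfl
        intro d _
        ring
      rw [Finset.sum_congr rfl (fun h hh => Finset.sum_congr rfl (fun k hk => this h hh k hk))]
      have h3 : ∀ h ∈ DD q Y, ∑ k ∈ DD q Y, ∑ d ∈ DD q Y,
          JJ s d * (((if d ∣ h then (1 : ℝ) else 0) * c h) * ((if d ∣ k then 1 else 0) * c k))
          = ∑ d ∈ DD q Y, ∑ k ∈ DD q Y,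
          JJ s d * (((if d ∣ h then (1 : ℝ) else 0) * c h) * ((if d ∣ k then 1 else 0) * c k)) := by
        intro h _
        exact Finset.sum_comm
      rw [Finset.sum_congr rfl h3, Finset.sum_comm]
      apply Finset.sum_congr rfl
      intro d _
      rw [sq, Finset.sum_mul_sum, Finset.mul_sum]
      apply Finset.sum_congr rfl
      intro h _
      rw [Finset.mul_sum]
    rw [hQ2]
    have h4 : ∀ d ∈ DD q Y, JJ s d * (∑ h ∈ DD q Y, (if d ∣ h then 1 else 0) * c h) ^ 2
        = (GS q Y s)⁻¹ ^ 2 * gS s d := by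
      intro d hd
      rw [hy d hd]
      have hm : (ArithmeticFunction.moebius d : ℝ) ^ 2 = 1 := by
        have := ArithmeticFunction.moebius_sq_eq_one_of_squarefree (mem_DD.mp hd).2.1
        exact_mod_cast this
      have hJ := JJ_mul_gS hs d
      calc JJ s d * ((GS q Y s)⁻¹ * ((ArithmeticFunction.moebius d : ℝ) * gS s d)) ^ 2
          = (GS q Y s)⁻¹ ^ 2 * (ArithmeticFunction.moebius d : ℝ) ^ 2 * (JJ s d * gS s d) * gS s d := by
            ring
        _ = _ := by rw [hm, hJ]; ring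
    rw [Finset.sum_congr rfl h4, ← Finset.mul_sum, ← GS_eq]
    field_simp

end Pool.Agent.H26.PZ
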