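import Pool.Agent.H26.PZ.QA

/-!
Module QR (MP_9f0eeb_nt): Rankin's bound. helper26
-/

set_option autoImplicit false

open Finset

noncomputable section

namespace Pool.Agent.H26.PZ

open Pool.Agent.H28.MZ

/-- `n ↦ n^{-s}` as a monoid homomorphism -/
def pw (s : ℝ) : ℕ →* ℝ where
  toFun n := (n : ℝ) ^ (-s)
  map_one' := by simp
  map_mul' a b := by
    push_cast
    exact Real.mul_rpow (by positivity) (by positivity)

theorem pw_apply (s : ℝ) (n : ℕ) : pw s n = (n : ℝ) ^ (-s) := rfl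

/-- the sum over a finite set of integers with given squarefree kernel -/
theorem sum_rad_le {s : ℝ} (hs : 0 < s) {d : ℕ} (hd : Squarefree d) (L : Finset ℕ)
    (hL : ∀ l ∈ L, l ≠ 0 ∧ l.primeFactors = d.primeFactors) :
    ∑ l ∈ L, (l : ℝ) ^ (-s) ≤ gS s d := by
  have hd0 : d ≠ 0 := hd.ne_zero
  have hdl : ∀ l ∈ L, d ∣ l := by
    intro l hl
    rw [← Nat.prod_primeFactors_of_squarefree hd, ← (hL l hl).2]
    exact Nat.prod_primeFactors_dvd l
  have hlt : ∀ {p : ℕ}, p.Prime → ‖pw s p‖ < 1 := by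
    intro p hp
    rw [pw_apply, Real.norm_eq_abs, abs_of_nonneg (by positivity)]
    exact Real.rpow_lt_one_of_one_lt_of_neg (by exact_mod_cast hp.one_lt) (by linarith)
  obtain ⟨hsum, hhas⟩ :=
    EulerProduct.summable_and_hasSum_factoredNumbers_prod_filter_prime_geometric hlt d.primeFactors
  have hfil : d.primeFactors.filter (fun p => p.Prime) = d.primeFactors :=
    Finset.filter_true_of_mem (fun p hp => Nat.prime_of_mem_primeFactors hp)
  rw [hfil] at hhas
  -- the map to the factored numbers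
  set A : Finset ℕ := L.image (fun l => l / d) with hA
  have hinj : Set.InjOn (fun l => l / d) (L : Set ℕ) := by
    intro a ha b hb hab
    simp only at hab
    obtain ⟨a', rfl⟩ := hdl a ha
    obtain ⟨b', rfl⟩ := hdl b hb
    rw [Nat.mul_div_cancel_left _ (Nat.pos_of_ne_zero hd0),
      Nat.mul_div_cancel_left _ (Nat.pos_of_ne_zero hd0)] at hab
    rw [hab]
  have hAf : ∀ m ∈ A, m ∈ Nat.factoredNumbers d.primeFactors := by
    intro m hm
    rw [hA, Finset.mem_image] at hm
    obtain ⟨l, hl, rfl⟩ := hm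
    obtain ⟨c, rfl⟩ := hdl l hl
    rw [Nat.mul_div_cancel_left _ (Nat.pos_of_ne_zero hd0)]
    rw [Nat.mem_factoredNumbers_iff_primeFactors_subset]
    have h0 := (hL _ hl).1
    have hc0 : c ≠ 0 := right_ne_zero_of_mul h0
    refine ⟨hc0, ?_⟩
    rw [← (hL _ hl).2]
    exact Nat.primeFactors_mono (Dvd.intro_left d rfl) h0
  have h1 : ∑ l ∈ L, (l : ℝ) ^ (-s) = (d : ℝ) ^ (-s) * ∑ m ∈ A, pw s m := by
    rw [hA, Finset.sum_image hinj, Finset.mul_sum]
    apply Finset.sum_congr rfl
    intro l hl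
    rw [pw_apply, ← Real.mul_rpow (by positivity) (by positivity), ← Nat.cast_mul,
      Nat.mul_div_cancel' (hdl l hl)]
  have h2 : ∑ m ∈ A, pw s m ≤ ∏ p ∈ d.primeFactors, (1 - pw s p)⁻¹ := by
    have h3 : ∑ m ∈ A, pw s m = ∑ m ∈ A.subtype (fun m => m ∈ Nat.factoredNumbers d.primeFactors),
        pw s (m : ℕ) := by
      rw [Finset.sum_subtype_eq_sum_filter, Finset.filter_true_of_mem hAf]
    rw [h3]
    exact sum_le_hasSum _ (fun m _ => by rw [pw_apply]; positivity) hhas
  have h4 : (d : ℝ) ^ (-s) * ∏ p ∈ d.primeFactors, (1 - pw s p)⁻¹ = gS s d := by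
    have h5 : (d : ℝ) = ∏ p ∈ d.primeFactors, (p : ℝ) := by
      rw [← Nat.cast_prod, Nat.prod_primeFactors_of_squarefree hd]
    conv_lhs => rw [h5]
    rw [← Real.finsetProd_rpow _ _ (fun i _ => by positivity), ← Finset.prod_mul_distrib]
    unfold gS
    apply Finset.prod_congr rfl
    intro p hp
    have hpp := Nat.prime_of_mem_primeFactors hp
    have h6 := ps_pos hs hpp
    have h7 : (0 : ℝ) < (p : ℝ) ^ s := by
      have : (0 : ℝ) < p := by exact_mod_cast hpp.pos
      positivity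
    rw [pw_apply, Real.rpow_neg (by positivity)]
    have h8 : 1 - ((p : ℝ) ^ s)⁻¹ = ((p : ℝ) ^ s - 1) / (p : ℝ) ^ s := by field_simp
    rw [h8]
    field_simp
  rw [h1, ← h4]
  exact mul_le_mul_of_nonneg_left h2 (by positivity)

/-- the sum over all `l ≤ Y` prime to `q` is at most `GS` -/
theorem sum_le_GS {s : ℝ} (hs : 0 < s) (q Y : ℕ) :
    ∑ l ∈ (Finset.Icc 1 Y).filter (fun l => Nat.Coprime l q), (l : ℝ) ^ (-s) ≤ GS q Y s := by
  rw [GS_eq]
  have hmaps : ∀ l ∈ (Finset.Icc 1 Y).filter (fun l => Nat.Coprime l q),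
      (∏ p ∈ l.primeFactors, p) ∈ DD q Y := by
    intro l hl
    rw [Finset.mem_filter, Finset.mem_Icc] at hl
    have hdvd : (∏ p ∈ l.primeFactors, p) ∣ l := Nat.prod_primeFactors_dvd l
    rw [mem_DD]
    refine ⟨⟨Nat.pos_of_dvd_of_pos hdvd (by omega), (Nat.le_of_dvd (by omega) hdvd).trans hl.1.2⟩,
      ?_, hl.2.coprime_dvd_left hdvd⟩
    have := Nat.primeFactors_prod (s := l.primeFactors)
      (fun p hp => Nat.prime_of_mem_primeFactors hp)
    rw [Nat.squarefree_iff_prime_squarefree]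
    intro p hp hpp
    have h1 : (∏ p ∈ l.primeFactors, p) = p * ∏ r ∈ l.primeFactors.erase p, r := by
      rw [Finset.mul_prod_erase l.primeFactors (fun r => r)]
      rw [Nat.mem_primeFactors]
      exact ⟨hp, (Dvd.intro _ rfl : p ∣ p * p).trans (hpp.trans hdvd), by omega⟩
    rw [h1] at hpp
    have h2 : p ∣ ∏ r ∈ l.primeFactors.erase p, r := Nat.dvd_of_mul_dvd_mul_left hp.pos hpp
    rw [hp.prime.dvd_finsetProd_iff] at h2
    obtain ⟨r, hr, hpr⟩ := h2
    rw [Finset.mem_erase] at hr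
    have hrp := Nat.prime_of_mem_primeFactors hr.2
    exact hr.1 ((Nat.prime_dvd_prime_iff_eq hp hrp).mp hpr).symm
  rw [← Finset.sum_fiberwise_of_maps_to hmaps]
  apply Finset.sum_le_sum
  intro d hd
  apply sum_rad_le hs (mem_DD.mp hd).2.1
  intro l hl
  rw [Finset.mem_filter, Finset.mem_filter, Finset.mem_Icc] at hl
  refine ⟨by omega, ?_⟩
  rw [← hl.2]
  exact (Nat.primeFactors_prod (s := l.primeFactors)
      (fun p hp => Nat.prime_of_mem_primeFactors hp)).symm

/-- the summand of `zq` -/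
def FF (q : ℕ) (x : ℝ) (l : ℕ) : ℝ := if 1 ≤ l ∧ Nat.Coprime l q then (l : ℝ) ^ (-x) else 0

theorem FF_nonneg (q : ℕ) (x : ℝ) (l : ℕ) : 0 ≤ FF q x l := by
  unfold FF
  split_ifs
  · positivity
  · exact le_rfl

theorem FF_summable (q : ℕ) {x : ℝ} (hx : 1 < x) : Summable (FF q x) := by
  apply Summable.of_nonneg_of_le (FF_nonneg q x) (fun l => ?_)
    (Real.summable_nat_rpow.mpr (by linarith : -x < -1))
  unfold FF
  split_ifs
  · exact le_rfl
  · positivity

theorem qr (hZ : T_ZQ) : T_QR := by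
  intro q hq
  obtain ⟨-, ⟨c₁, c₂, hc₁, hc₂, hz⟩, hts⟩ := hZ q hq
  refine ⟨max 1 (Real.exp 1 * (c₂ / c₁)), le_max_left _ _, ?_⟩
  intro s Y hs1 hs2 hY hv
  have hY1 : (1 : ℝ) < Y := by exact_mod_cast (by omega : 1 < Y)
  have hY0 : (0 : ℝ) < Y := by linarith
  have hlog : 0 < Real.log Y := Real.log_pos hY1
  set β : ℝ := 1 / Real.log Y with hβ
  have hβ0 : 0 < β := by positivity
  have hβs : β ≤ s - 1 := by
    rw [hβ, div_le_iff₀ hlog]
    exact hv
  set α : ℝ := s - 1 - β with hα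
  have hα0 : 0 ≤ α := by linarith
  have hsα : s - α = 1 + β := by rw [hα]; ring
  have hzs : zq q s = ∑' l, FF q s l := hts s hs1
  have hzb : zq q (1 + β) = ∑' l, FF q (1 + β) l := hts (1 + β) (by linarith)
  have hsb := FF_summable q (by linarith : 1 < 1 + β)
  have hss := FF_summable q hs1
  -- split
  have hterm : ∀ l, FF q s l ≤ (if l ∈ (Finset.Icc 1 Y).filter (fun l => Nat.Coprime l q)
      then (l : ℝ) ^ (-s) else 0) + (Y : ℝ) ^ (-α) * FF q (1 + β) l := by
    intro l
    have hY' : 0 ≤ (Y : ℝ) ^ (-α) := by positivity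
    by_cases h1 : l ∈ (Finset.Icc 1 Y).filter (fun l => Nat.Coprime l q)
    · rw [if_pos h1]
      have h2 : FF q s l = (l : ℝ) ^ (-s) := by
        rw [Finset.mem_filter, Finset.mem_Icc] at h1
        unfold FF
        rw [if_pos ⟨h1.1.1, h1.2⟩]
      rw [h2]
      have := mul_nonneg hY' (FF_nonneg q (1 + β) l)
      linarith
    · rw [if_neg h1, zero_add]
      by_cases h2 : 1 ≤ l ∧ Nat.Coprime l q
      · have h3 : Y < l := by
          by_contra h3
          apply h1
          rw [Finset.mem_filter, Finset.mem_Icc]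
          exact ⟨⟨h2.1, by omega⟩, h2.2⟩
        unfold FF
        rw [if_pos h2, if_pos h2]
        have hl0 : (0 : ℝ) < l := by exact_mod_cast (by omega : 0 < l)
        have hYl : (Y : ℝ) ≤ l := by exact_mod_cast h3.le
        have h4 : (l : ℝ) ^ (-s) = (l : ℝ) ^ (-α) * (l : ℝ) ^ (-(1 + β)) := by
          rw [← Real.rpow_add hl0]
          congr 1
          rw [← hsα]
          ring
        rw [h4]
        apply mul_le_mul_of_nonneg_right _ (by positivity)
        exact Real.rpow_le_rpow_of_nonpos hY0 hYl (by linarith)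
      · unfold FF
        rw [if_neg h2, if_neg h2]
        simp
  have hfin : Summable (fun l => if l ∈ (Finset.Icc 1 Y).filter (fun l => Nat.Coprime l q)
      then (l : ℝ) ^ (-s) else 0) := by
    apply summable_of_ne_finset_zero (s := (Finset.Icc 1 Y).filter (fun l => Nat.Coprime l q))
    intro l hl
    rw [if_neg hl]
  have hsplit : zq q s ≤ GS q Y s + (Y : ℝ) ^ (-α) * zq q (1 + β) := by
    rw [hzs, hzb]
    calc ∑' l, FF q s l ≤ ∑' l, ((if l ∈ (Finset.Icc 1 Y).filter (fun l => Nat.Coprime l q)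
      then (l : ℝ) ^ (-s) else 0) + (Y : ℝ) ^ (-α) * FF q (1 + β) l) :=
          hss.tsum_le_tsum hterm (hfin.add (hsb.mul_left _))
      _ = (∑' l, if l ∈ (Finset.Icc 1 Y).filter (fun l => Nat.Coprime l q)
          then (l : ℝ) ^ (-s) else 0) + ∑' l, (Y : ℝ) ^ (-α) * FF q (1 + β) l :=
          hfin.tsum_add (hsb.mul_left _)
      _ ≤ _ := by
          rw [tsum_mul_left]
          apply add_le_add _ le_rfl
          rw [tsum_eq_sum (s := (Finset.Icc 1 Y).filter (fun l => Nat.Coprime l q))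
            (fun l hl => if_neg hl)]
          refine le_trans (le_of_eq ?_) (sum_le_GS (by linarith : 0 < s) q Y)
          apply Finset.sum_congr rfl
          intro l hl
          rw [if_pos hl]
  -- the tail
  have hYα : (Y : ℝ) ^ (-α) = Real.exp 1 * Real.exp (-((s - 1) * Real.log Y)) := by
    rw [Real.rpow_def_of_pos hY0, ← Real.exp_add]
    congr 1
    rw [hα, hβ]
    field_simp
    ring
  have hzb2 : zq q (1 + β) ≤ c₂ * Real.log Y := by
    have h := (hz (1 + β) (by linarith) (by linarith)).2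
    have h2 : c₂ / (1 + β - 1) = c₂ * Real.log Y := by
      rw [hβ]
      field_simp
      ring
    rw [h2] at h
    exact h
  have hzs1 : c₁ / (s - 1) ≤ zq q s := (hz s hs1 hs2).1
  have hs10 : 0 < s - 1 := by linarith
  have hzpos : 0 < zq q s := lt_of_lt_of_le (by positivity) hzs1
  have h5 : Real.log Y ≤ (s - 1) * Real.log Y * zq q s / c₁ := by
    rw [le_div_iff₀ hc₁]
    have h6 : c₁ ≤ (s - 1) * zq q s := by
      rw [div_le_iff₀ hs10] at hzs1
      linarith
    nlinarith
  calc zq q s - GS q Y s ≤ (Y : ℝ) ^ (-α) * zq q (1 + β) := by linarith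
    _ ≤ (Y : ℝ) ^ (-α) * (c₂ * Real.log Y) := mul_le_mul_of_nonneg_left hzb2 (by positivity)
    _ ≤ (Y : ℝ) ^ (-α) * (c₂ * ((s - 1) * Real.log Y * zq q s / c₁)) := by
        apply mul_le_mul_of_nonneg_left _ (by positivity)
        exact mul_le_mul_of_nonneg_left h5 hc₂.le
    _ = (Real.exp 1 * (c₂ / c₁)) * ((s - 1) * Real.log Y)
          * Real.exp (-((s - 1) * Real.log Y)) * zq q s := by
        rw [hYα]
        field_simp
    _ ≤ _ := by
        apply mul_le_mul_of_nonneg_right _ hzpos.le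
        apply mul_le_mul_of_nonneg_right _ (Real.exp_pos _).le
        apply mul_le_mul_of_nonneg_right (le_max_right _ _)
        positivity

end Pool.Agent.H26.PZ
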